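import Pool.Agent.H31.BOU.Targets3

/-!
# Double recurrence: row CNV (few jumps imply convergence)
-/

set_option autoImplicit false

namespace Pool.Agent.H11.BOU

open Finset Filter Pool.Agent.H31.BOU

theorem pf_CNV : T_CNV := by
  intro A hA
  have hC : CauchySeq A := by
    rw [Metric.cauchySeq_iff]
    by_contra hcon
    push Not at hcon
    obtain ⟨ε, hε, hbad⟩ := hcon
    have hstep : ∀ n : ℕ, ∃ N, 2 * n ≤ N ∧ ε / 3 < ‖A n - A N‖ := by
      intro n
      obtain ⟨m, hm, m', hm', hd⟩ := hbad (2 * n)
      by_contra hno
      push Not at hno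
      have h1 := hno m hm
      have h2 := hno m' hm'
      rw [dist_eq_norm] at hd
      have h3 : A m - A m' = (A n - A m') - (A n - A m) := by ring
      have h4 := norm_sub_le (A n - A m') (A n - A m)
      rw [← h3] at h4
      linarith
    choose g hg1 hg2 using hstep
    obtain ⟨K, hK⟩ := hA (ε / 3) (by positivity)
    refine hK (g^[K] 1) ⟨fun i => g^[i] 1, le_refl _, fun i _ => ?_, le_refl _, fun i _ => ?_⟩
    · simp only [Function.iterate_succ_apply']
      exact hg1 _
    · simp only [Function.iterate_succ_apply']
      exact hg2 _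
  exact cauchySeq_tendsto_of_complete hC

end Pool.Agent.H11.BOU
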