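import Pool.Agent.H31.BOU.Targets1

/-!
# Double recurrence: row GEO (geometric sums)
-/

set_option autoImplicit false

namespace Pool.Agent.H11.BOU

open Finset Pool.Agent.H31.BOU

theorem norm_ee (t : ℝ) : ‖ee t‖ = 1 := by
  unfold ee
  exact Complex.norm_exp_ofReal_mul_I _

theorem ee_add (s t : ℝ) : ee (s + t) = ee s * ee t := by
  unfold ee
  rw [← Complex.exp_add]
  congr 1
  push_cast
  ring

/-- a sum over an interval of integers as a sum over naturals -/
theorem sum_int {M : Type} [AddCommMonoid M] (x : ℤ) (n : ℕ) (f : ℤ → M) :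
    ∑ v ∈ Ico x (x + n), f v = ∑ u ∈ range n, f (x + u) := by
  rw [Int.Ico_eq_finset_map]
  simp

theorem geo_tel (θ : ℝ) (x y : ℤ) (hxy : x ≤ y) :
    (∑ v ∈ Ico x y, ee (θ * (v : ℝ))) * (ee θ - 1) = ee (θ * y) - ee (θ * x) := by
  obtain ⟨n, rfl⟩ := Int.le.dest hxy
  rw [sum_int]
  induction n with
  | zero => simp
  | succ n ih =>
    rw [sum_range_succ, add_mul, ih (by omega)]
    have h : ee (θ * ((x + (n + 1 : ℕ) : ℤ) : ℝ)) = ee (θ * ((x + n : ℤ) : ℝ)) * ee θ := by
      rw [← ee_add]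
      congr 1
      push_cast
      ring
    rw [h]
    ring

theorem two_nd_le (θ : ℝ) : 4 * nd θ ≤ ‖ee θ - 1‖ := by
  have h0 : ‖ee θ - 1‖ = 2 * |Real.sin (Real.pi * θ)| := by
    unfold ee
    rw [mul_comm, Complex.norm_exp_I_mul_ofReal_sub_one, Real.norm_eq_abs, abs_mul]
    rw [abs_of_pos (by norm_num : (0 : ℝ) < 2)]
    congr 3
    ring
  rw [h0]
  have h1 : |Real.sin (Real.pi * θ)| = |Real.sin (Real.pi * (θ - round θ))| := by
    have h := Real.sin_sub_int_mul_pi (Real.pi * θ) (round θ)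
    have h2 : Real.pi * (θ - round θ) = Real.pi * θ - (round θ) * Real.pi := by ring
    rw [h2, h, abs_mul]
    simp
  rw [h1]
  have h2 := abs_sub_round θ
  unfold nd
  set s := θ - round θ
  have hpi := Real.pi_pos
  have h3 := Real.mul_le_sin (x := Real.pi * |s|) (by positivity) (by nlinarith)
  have h4 : 2 / Real.pi * (Real.pi * |s|) = 2 * |s| := by
    field_simp
  rw [h4] at h3
  have h5 : |Real.sin (Real.pi * |s|)| = |Real.sin (Real.pi * s)| := by
    rcases abs_cases s with h | h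
    · rw [h.1]
    · rw [h.1, mul_neg, Real.sin_neg, abs_neg]
  have h6 := le_abs_self (Real.sin (Real.pi * |s|))
  rw [h5] at h6
  linarith

theorem pf_GEO : T_GEO := by
  intro θ x y hxy
  constructor
  · refine (norm_sum_le _ _).trans ?_
    simp only [norm_ee, sum_const, Int.card_Ico, nsmul_eq_mul, mul_one]
    have h : (((y - x).toNat : ℤ) : ℝ) = ((y - x : ℤ) : ℝ) := by
      rw [Int.toNat_of_nonneg (by omega)]
    exact_mod_cast h.le
  · have h1 := congrArg norm (geo_tel θ x y hxy)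
    rw [norm_mul] at h1
    have h2 := norm_sub_le (ee (θ * y)) (ee (θ * x))
    rw [norm_ee, norm_ee] at h2
    have h3 := two_nd_le θ
    have h4 := norm_nonneg (∑ v ∈ Ico x y, ee (θ * (v : ℝ)))
    nlinarith

end Pool.Agent.H11.BOU
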