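import Pool.Agent.H11.BOU.GEO

/-!
# Double recurrence: row HAT (the hat weight)
-/

set_option autoImplicit false

namespace Pool.Agent.H11.BOU

open Finset Pool.Agent.H31.BOU

/-- the number of representations as a sum of two numbers below `n` -/
theorem conv_count {M : Type} [AddCommMonoid M] (n : ℕ) (g : ℕ → M) :
    ∑ a ∈ range n, ∑ b ∈ range n, g (a + b) =
      ∑ v ∈ range (2 * n), (min (v + 1) (2 * n - 1 - v)) • g v := by
  have h1 : ∀ a ∈ range n, ∑ b ∈ range n, g (a + b) =
      ∑ v ∈ range (2 * n), if v ∈ Ico a (a + n) then g v else 0 := by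
    intro a ha
    rw [mem_range] at ha
    rw [← sum_filter]
    have h2 : (range (2 * n)).filter (fun v => v ∈ Ico a (a + n)) = Ico a (a + n) := by
      ext v
      simp only [mem_filter, mem_range, mem_Ico]
      omega
    rw [h2, sum_Ico_eq_sum_range]
    simp
  rw [sum_congr rfl h1, sum_comm]
  refine sum_congr rfl fun v hv => ?_
  rw [mem_range] at hv
  rw [← sum_filter, sum_const]
  congr 1
  have h3 : (range n).filter (fun a => v ∈ Ico a (a + n)) = Ico (v + 1 - n) (min (v + 1) n) := by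
    ext a
    simp only [mem_filter, mem_range, mem_Ico]
    omega
  rw [h3, Nat.card_Ico]
  omega

theorem hat_cast (j : ℕ) (u : ℕ) (hu : u < 2 * 2 ^ j) :
    (4 : ℝ) ^ j * hat j (u : ℤ) = ((min (u + 1) (2 * 2 ^ j - 1 - u) : ℕ) : ℝ) := by
  unfold hat
  rw [mul_div_cancel₀ _ (by positivity)]
  rw [Nat.cast_min, Nat.cast_sub (by omega), Nat.cast_sub (by
    have := Nat.one_le_two_pow (n := j)
    omega)]
  push_cast
  have h : (u : ℝ) + 1 ≤ 2 * 2 ^ j := by exact_mod_cast hu
  rw [pow_succ, mul_comm ((2 : ℝ) ^ j) 2]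
  apply max_eq_right
  apply le_min
  · positivity
  · linarith

theorem hat_one (f : ℤ → ℂ) (j : ℕ) (x : ℤ) :
    ∑ a ∈ range (2 ^ j), ∑ b ∈ range (2 ^ j), f (x + a + b) =
      4 ^ j * ∑ v ∈ Ico x (x + 2 ^ (j + 1)), (hat j (v - x) : ℂ) * f v := by
  have h1 := conv_count (2 ^ j) (fun v : ℕ => f (x + v))
  have h2 : (x + 2 ^ (j + 1) : ℤ) = x + ((2 * 2 ^ j : ℕ) : ℤ) := by
    push_cast
    ring
  rw [h2, sum_int, mul_sum]
  calc ∑ a ∈ range (2 ^ j), ∑ b ∈ range (2 ^ j), f (x + a + b)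
      = ∑ a ∈ range (2 ^ j), ∑ b ∈ range (2 ^ j), f (x + (a + b : ℕ)) := by
        refine sum_congr rfl fun a _ => sum_congr rfl fun b _ => ?_
        congr 1
        push_cast
        ring
    _ = _ := h1
    _ = _ := by
        refine sum_congr rfl fun u hu => ?_
        rw [mem_range] at hu
        have h3 := hat_cast j u hu
        have h4 : x + (u : ℤ) - x = u := by ring
        rw [h4, nsmul_eq_mul, ← mul_assoc]
        congr 1
        rw [← Complex.ofReal_natCast, ← h3, Complex.ofReal_mul, Complex.ofReal_pow]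
        norm_num

theorem hat_two (j : ℕ) (v : ℤ) : 0 ≤ hat j v ∧ hat j v ≤ 1 / 2 ^ j ∧
    |hat j (v + 1) - hat j v| ≤ 1 / 4 ^ j ∧ (v < 0 ∨ 2 ^ (j + 1) ≤ v + 1 → hat j v = 0) := by
  have h4 : (0 : ℝ) < 4 ^ j := by positivity
  have h2 : (0 : ℝ) < 2 ^ j := by positivity
  have h42 : (4 : ℝ) ^ j = 2 ^ j * 2 ^ j := by
    rw [← mul_pow]
    norm_num
  have hs : (2 : ℝ) ^ (j + 1) = 2 * 2 ^ j := by ring
  refine ⟨?_, ?_, ?_, ?_⟩
  · unfold hat
    exact div_nonneg (le_max_left _ _) h4.le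
  · unfold hat
    rw [h42, ← div_div, div_le_div_iff_of_pos_right h2, div_le_one h2, hs]
    apply max_le h2.le
    rcases le_total ((v : ℝ) + 1) (2 ^ j) with h | h
    · exact (min_le_left _ _).trans h
    · exact (min_le_right _ _).trans (by linarith)
  · unfold hat
    rw [← sub_div, abs_div, abs_of_pos h4, div_le_div_iff_of_pos_right h4]
    push_cast
    rw [abs_le]
    constructor
    · simp only [max_def, min_def]
      split_ifs <;> linarith
    · simp only [max_def, min_def]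
      split_ifs <;> linarith
  · intro h
    unfold hat
    have h3 : max 0 (min ((v : ℝ) + 1) (2 ^ (j + 1) - 1 - v)) = 0 := by
      apply max_eq_left
      rcases h with h | h
      · have h5 : (v : ℝ) + 1 ≤ 0 := by exact_mod_cast h
        exact (min_le_left _ _).trans h5
      · have h5 : (2 : ℝ) ^ (j + 1) ≤ v + 1 := by exact_mod_cast h
        exact (min_le_right _ _).trans (by linarith)
    rw [h3, zero_div]

theorem pf_HAT : T_HAT := by
  refine ⟨hat_one, hat_two, fun j => ?_⟩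
  have h1 := hat_one (fun _ => 1) j 0
  simp only [sum_const, card_range, zero_add, sub_zero, mul_one, nsmul_eq_mul] at h1
  have h2 : ((2 ^ j : ℕ) : ℂ) * ((2 ^ j : ℕ) : ℂ) = 4 ^ j := by
    push_cast
    rw [← mul_pow]
    norm_num
  rw [h2] at h1
  have h3 : (4 : ℂ) ^ j ≠ 0 := pow_ne_zero _ (by norm_num)
  have h4 := mul_left_cancel₀ h3 ((mul_one _).trans h1)
  have h5 : ((∑ v ∈ Ico (0 : ℤ) (2 ^ (j + 1)), hat j v : ℝ) : ℂ) = 1 := by
    rw [Complex.ofReal_sum]
    exact h4.symm
  exact_mod_cast h5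

end Pool.Agent.H11.BOU
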