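import Pool.Agent.H31.BOU.Targets1
import Pool.Agent.H31.BOU.Targets2

/-!
# Double recurrence: row NFL (a long piece far from the frequency)
-/

set_option autoImplicit false

namespace Pool.Agent.H11.BOU

open Finset Pool.Agent.H31.BOU

theorem norm_ft_le (s : Finset ℤ) (γ : ℤ → ℂ) (β : ℝ) : ‖ft s γ β‖ ≤ ∑ v ∈ s, ‖γ v‖ := by
  unfold ft
  refine (norm_sum_le _ _).trans (sum_le_sum fun v _ => ?_)
  rw [norm_mul]
  have h : ‖ee (-(β * (v : ℝ)))‖ = 1 := by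
    unfold ee
    exact Complex.norm_exp_ofReal_mul_I _
  rw [h, mul_one]

theorem pf_NFL (hX : T_CHI) (hT : T_TLQ) : T_NFL := by
  intro p j l x lo hi γ β δ S hp hδ hlo hsub hS hfar hγ
  have hp' : (0 : ℝ) < p := by exact_mod_cast hp
  have h2 : (0 : ℝ) < 4 * 2 ^ j := by positivity
  have hterm : ∀ b ∈ S, ‖ft (Ico x (x + l)) γ ((b : ℝ) / p)‖ *
      ‖ft (Ico x (x + l)) (fun v => (chi j lo hi v : ℂ)) ((b : ℝ) / p - β)‖ ≤
      (4 * 2 ^ j)⁻¹ * (1 / nd ((b : ℝ) / p - β) ^ 2) := by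
    intro b hb
    have h1 := (norm_ft_le (Ico x (x + l)) γ ((b : ℝ) / p)).trans hγ
    have h3 := (hX j lo hi hlo).2.2.2 (Ico x (x + l)) ((b : ℝ) / p - β) hsub
    have h4 := hfar b hb
    have h5 : 0 < nd ((b : ℝ) / p - β) ^ 2 := by
      have : 0 < nd ((b : ℝ) / p - β) := lt_of_lt_of_le hδ h4
      positivity
    have h6 := norm_nonneg (ft (Ico x (x + l)) (fun v => (chi j lo hi v : ℂ)) ((b : ℝ) / p - β))
    have h7 : ‖ft (Ico x (x + l)) (fun v => (chi j lo hi v : ℂ)) ((b : ℝ) / p - β)‖ ≤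
        (4 * 2 ^ j)⁻¹ * (1 / nd ((b : ℝ) / p - β) ^ 2) := by
      have h8 : (4 * 2 ^ j : ℝ)⁻¹ * (1 / nd ((b : ℝ) / p - β) ^ 2) =
          1 / (4 * 2 ^ j * nd ((b : ℝ) / p - β) ^ 2) := by
        rw [← one_div, one_div_mul_one_div]
      rw [h8, le_div_iff₀ (by positivity)]
      exact h3
    calc _ ≤ 1 * ‖ft (Ico x (x + l)) (fun v => (chi j lo hi v : ℂ)) ((b : ℝ) / p - β)‖ :=
          mul_le_mul_of_nonneg_right h1 h6
      _ ≤ _ := by rw [one_mul]; exact h7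
  have hsum : ∑ b ∈ S, ‖ft (Ico x (x + l)) γ ((b : ℝ) / p)‖ *
      ‖ft (Ico x (x + l)) (fun v => (chi j lo hi v : ℂ)) ((b : ℝ) / p - β)‖ ≤
      (4 * 2 ^ j)⁻¹ * (2 / δ ^ 2 + 2 * p / δ) := by
    refine (sum_le_sum hterm).trans ?_
    rw [← mul_sum]
    refine mul_le_mul_of_nonneg_left ?_ (by positivity)
    refine le_trans ?_ (hT p β δ hp hδ)
    refine sum_le_sum_of_subset_of_nonneg ?_ fun _ _ _ => by positivity
    intro b hb
    rw [mem_filter]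
    exact ⟨hS hb, hfar b hb⟩
  rw [div_le_iff₀ hp']
  refine hsum.trans (le_of_eq ?_)
  field_simp

end Pool.Agent.H11.BOU
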