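import Pool.Agent.H11.BOU.HAT

/-!
# Double recurrence: row SQ (sums over pairs)
-/

set_option autoImplicit false

namespace Pool.Agent.H11.BOU

open Finset Pool.Agent.H31.BOU

theorem pf_SQ : T_SQ := by
  intro J j f hj hf
  have h1 := conv_count (2 ^ (J - j)) (fun v : ℕ => f v)
  have h2 : ∑ p ∈ range (2 ^ (J - j)), ∑ q ∈ range (2 ^ (J - j)), f ((p : ℤ) + q) =
      ∑ a ∈ range (2 ^ (J - j)), ∑ b ∈ range (2 ^ (J - j)), f ((a + b : ℕ) : ℤ) :=
    sum_congr rfl fun a _ => sum_congr rfl fun b _ => by push_cast; rfl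
  have h3 : ∑ κ ∈ Ico (0 : ℤ) (2 ^ (J - j + 1)), f κ = ∑ v ∈ range (2 * 2 ^ (J - j)), f v := by
    have h := sum_int 0 (2 * 2 ^ (J - j)) f
    simp only [zero_add] at h
    rw [← h]
    congr 2
    push_cast
    ring
  rw [h2, h1, h3]
  have h4 : ∑ v ∈ range (2 * 2 ^ (J - j)), (min (v + 1) (2 * 2 ^ (J - j) - 1 - v)) • f v ≤
      (2 : ℝ) ^ (J - j) * ∑ v ∈ range (2 * 2 ^ (J - j)), f v := by
    rw [mul_sum]
    refine sum_le_sum fun v _ => ?_
    rw [nsmul_eq_mul]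
    refine mul_le_mul_of_nonneg_right ?_ (hf _)
    have h5 : min (v + 1) (2 * 2 ^ (J - j) - 1 - v) ≤ 2 ^ (J - j) := by omega
    exact_mod_cast h5
  have h6 : (4 : ℝ) ^ j * 2 ^ (J - j) = 2 ^ J * 2 ^ j := by
    have h7 : (4 : ℝ) ^ j = 2 ^ j * 2 ^ j := by
      rw [← mul_pow]
      norm_num
    have h8 : (2 : ℝ) ^ J = 2 ^ j * 2 ^ (J - j) := by
      rw [← pow_add]
      congr 1
      omega
    rw [h7, h8]
    ring
  calc _ ≤ (4 : ℝ) ^ j * ((2 : ℝ) ^ (J - j) * ∑ v ∈ range (2 * 2 ^ (J - j)), f v) :=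
        mul_le_mul_of_nonneg_left h4 (by positivity)
    _ = _ := by rw [← mul_assoc, h6]

end Pool.Agent.H11.BOU
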